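import Pool.Agent.P.MP_dbfd73_lc.Main

universe u

open ZFSet Pool.Agent.Lib.Forcing Pool.Agent.P.MP_dbfd73_lc

/-- There is a topological Ramsey space of `ω`-sequences (approximations are restrictions; the
space and the sets `{B : B ≤ A}` are closed; `[a, B] ≠ ∅` is decided by a finite approximation of
`B`; `AR_1` is a copy of `ω`) whose forcing adds no reals and forces `U_1` to be an ultrafilter
with `U_1 · U_1` not Tukey below `U_1`. -/
theorem Pool.Agent.Results.MP_dbfd73_lc.NonIdempotent.result :
    ∃ R le : ZFSet.{u}, ClosedSeq R ∧ (∀ A ∈ R, ClosedSeq (below R le A)) ∧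
    (∀ A B, pair A B ∈ le → ∀ n ∈ omega, ∃ m ∈ omega, ∀ B' ∈ R, res m B' = res m B →
      (cone R le (res n A) B').Nonempty) ∧
    (∀ a, a ∈ first R ↔ ∃ n ∈ omega, a = {pair ∅ n}) ∧ IsTRS R le ∧
    (∀ p ∈ R, ∃ M j R' le' G, GenericOver R le M j R' le' G ∧ ∃ p' ∈ G, j p' = p) ∧
    ∀ M j R' le' G, GenericOver R le M j R' le' G →
      (∀ x ∈ genericExt M G, x ⊆ omega → x ∈ M) ∧
      IsUltra (genericExt M G) (first R') (forced (genericExt M G) R' le' G) ∧
      ¬ TukeyLE (genericExt M G)
        (fubini (genericExt M G) (first R') (forced (genericExt M G) R' le' G))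
        (forced (genericExt M G) R' le' G) :=
  exists_space
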